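import Pool.Agent.Lib.MP_53c6dc_nt.Count

/-!
# Counting the `n` for which `h(n)` is large and different from `P(n)`
-/

set_option autoImplicit false
open Finset

namespace Pool.Agent.Lib.MP53c6dc

open Pool.Agent.Lib.Burgess (SM mem_SM smooth_crude exists_rpow_ge exists_bad_factor)

lemma Pfun_le_hfun (n : ℕ) (hn : 1 ≤ n) (h0 : 0 < hfun n) : Pfun n ≤ hfun n := by
  have hh : hfun n ∈ {m : ℕ | 3 ≤ m ∧ (Icc 2 m).gcd (fun i => i ^ n - 1) = 1} :=
    Nat.sInf_mem (Nat.nonempty_of_pos_sInf h0)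
  by_contra hlt
  push Not at hlt
  have hd : Pfun n ∣ (Icc 2 (hfun n)).gcd (fun i => i ^ n - 1) := by
    apply Finset.dvd_gcd
    intro i hi
    rw [mem_Icc] at hi
    exact Pfun_dvd n hn i hi.1 (by omega)
  rw [hh.2] at hd
  have := (Pfun_mem n hn).1.one_lt
  have := Nat.le_of_dvd one_pos hd
  omega

lemma exists_badB (n B : ℕ) (h3 : 3 ≤ B) (hB : B < hfun n) :
    ∃ q : ℕ, q.Prime ∧ ∀ i, 2 ≤ i → i ≤ B → q ∣ i ^ n - 1 := by
  by_contra hcon
  have hg : (Icc 2 B).gcd (fun i => i ^ n - 1) = 1 := by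
    by_contra hg
    obtain ⟨q, hq, hd⟩ := Nat.exists_prime_and_dvd hg
    exact hcon ⟨q, hq, fun i hi hip => hd.trans (Finset.gcd_dvd (mem_Icc.2 ⟨hi, hip⟩))⟩
  have hle : hfun n ≤ B := Nat.sInf_le ⟨h3, hg⟩
  omega

/-- the data attached to an exceptional `n` -/
lemma bad_dataB (n p : ℕ) (hn : 1 ≤ n) (h3 : 3 ≤ p) (hB : p < hfun n) (hPB : Pfun n ≤ p) :
    ∃ q g : ℕ, q.Prime ∧ p < q ∧ g ∣ n ∧ g ∣ q - 1 ∧ 1 ≤ g ∧
      (∀ X, X < q → (SM p X).card ≤ g) ∧
      ∃ χ : MulChar (ZMod q) ℂ, χ ≠ 1 ∧ χ ^ ((q - 1) / g) = 1 ∧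
        ∀ l : ℕ, l.Prime → l ≤ p → χ (l : ZMod q) = 1 := by
  obtain ⟨q, hq, hdvd⟩ := exists_badB n p h3 hB
  have hFq : Fact q.Prime := ⟨hq⟩
  have hpow : ∀ i, 1 ≤ i → i ≤ p → (i : ZMod q) ^ n = 1 := by
    intro i hi hip
    rcases Nat.eq_or_lt_of_le hi with h1 | h1
    · rw [← h1, Nat.cast_one, one_pow]
    · have h2 := (ZMod.natCast_eq_zero_iff _ _).2 (hdvd i h1 hip)
      have h4 : 1 ≤ i ^ n := Nat.one_le_pow _ _ (by omega)
      rw [Nat.cast_sub h4] at h2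
      push_cast at h2
      exact sub_eq_zero.1 h2
  have hpq : p < q := by
    by_contra hcon
    have h1 := hpow q hq.one_lt.le (by omega)
    rw [ZMod.natCast_self, zero_pow (by omega)] at h1
    exact zero_ne_one h1
  set g := n.gcd (q - 1) with hg
  have hq1 : 0 < q - 1 := by have := hq.two_le; omega
  have hgn : g ∣ n := Nat.gcd_dvd_left _ _
  have hgq : g ∣ q - 1 := Nat.gcd_dvd_right _ _
  have hg1 : 1 ≤ g := Nat.gcd_pos_of_pos_left _ hn
  have hglt : g < q - 1 := by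
    refine lt_of_le_of_ne (Nat.le_of_dvd hq1 hgq) ?_
    intro heq
    have := le_Pfun n hn q hq (heq ▸ hgn)
    omega
  have hpowg : ∀ m : ℕ, 1 ≤ m → (∀ r : ℕ, r.Prime → r ∣ m → r ≤ p) → (m : ZMod q) ^ g = 1 := by
    intro m hm hs
    have h1 := smooth_pow q n p hpow m hm hs
    have hne : (m : ZMod q) ≠ 0 := by
      intro h
      rw [h, zero_pow (by omega)] at h1
      exact zero_ne_one h1
    exact pow_gcd_eq_one.2 ⟨h1, ZMod.pow_card_sub_one_eq_one hne⟩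
  refine ⟨q, g, hq, hpq, hgn, hgq, hg1, ?_, ?_⟩
  · intro X hX
    classical
    have h1 : (SM p X).card ≤ (Polynomial.nthRootsFinset g (1 : ZMod q)).card := by
      apply card_le_card_of_injOn (fun m : ℕ => (m : ZMod q))
      · intro m hm
        rw [mem_coe, mem_SM] at hm
        rw [mem_coe, Polynomial.mem_nthRootsFinset hg1]
        exact hpowg m hm.1.1 hm.2
      · intro a ha b hb hab
        rw [mem_coe, mem_SM] at ha hb
        have hab' : ((a : ℕ) : ZMod q) = ((b : ℕ) : ZMod q) := hab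
        rw [ZMod.natCast_eq_natCast_iff'] at hab'
        rwa [Nat.mod_eq_of_lt (by omega), Nat.mod_eq_of_lt (by omega)] at hab'
    refine h1.trans ?_
    unfold Polynomial.nthRootsFinset
    exact (@Multiset.toFinset_card_le _ (Classical.decEq _) _).trans
      (Polynomial.card_nthRoots g 1)
  · have hprim := Complex.isPrimitiveRoot_exp (q - 1) hq1.ne'
    have hcard : q - 1 ∣ Fintype.card (ZMod q) - 1 := by rw [ZMod.card]
    obtain ⟨χ0, hχ0⟩ := MulChar.exists_mulChar_orderOf (ZMod q) hcard hprim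
    refine ⟨χ0 ^ g, ?_, ?_, ?_⟩
    · intro h
      have := orderOf_dvd_of_pow_eq_one h
      rw [hχ0] at this
      have := Nat.le_of_dvd hg1 this
      omega
    · rw [← pow_mul, Nat.mul_div_cancel' hgq, ← hχ0, pow_orderOf_eq_one]
    · intro l hl hlp
      rw [MulChar.pow_apply' χ0 (by omega), ← map_pow]
      have h1 := hpowg l hl.one_lt.le (fun r hr hd => (Nat.le_of_dvd hl.pos hd).trans hlp)
      rw [h1, map_one]

/-- all the data attached to a large exceptional `n` -/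
lemma exc_dataB (ε τ s : ℝ) (hε : 0 < ε) (hτ : 0 < τ) (hτ1 : τ ≤ 1) (hs : 0 < s) :
    ∃ u : ℕ, 1 ≤ u ∧ ∃ n₀ : ℝ, 1 ≤ n₀ ∧ ∀ n p : ℕ, n₀ ≤ n → (n : ℝ) ^ ε < p →
      p < hfun n → Pfun n ≤ p → p ≤ n ∧ ∃ q g : ℕ, q.Prime ∧ q ≤ p ^ u ∧ g ∣ n ∧ g ∣ q - 1 ∧ 1 ≤ g ∧
        ((q - 1 : ℕ) : ℝ) ^ (1 - s) ≤ g ∧ (p : ℝ) ^ (TT * (1 - τ)) ≤ q ∧
        ∃ χ : MulChar (ZMod q) ℂ, χ ≠ 1 ∧ ∀ l : ℕ, l.Prime → l ≤ p →
          χ (l : ZMod q) = 1 := by
  obtain ⟨s1, B1, hs1, h1⟩ := burgess_exponent τ hτ hτ1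
  obtain ⟨u, hu, B2, h2⟩ := q_bound ε hε
  obtain ⟨B3, h3⟩ := g_bound u hu (min s s1) (lt_min hs hs1)
  obtain ⟨n1, hn11, hn1⟩ := exists_rpow_ge ε (max (max B1 B2) (max B3 3)) hε
  refine ⟨u, hu, n1, hn11, ?_⟩
  intro n p hn hexc hph hPp
  have hn1' : 1 ≤ n := by
    have : (1 : ℝ) ≤ n := hn11.trans hn
    exact_mod_cast this
  have hB : max (max B1 B2) (max B3 3) ≤ (p : ℝ) := (hn1 n hn).trans hexc.le
  have hB1 : B1 ≤ (p : ℝ) := ((le_max_left _ _).trans (le_max_left _ _)).trans hB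
  have hB2 : B2 ≤ (p : ℝ) := ((le_max_right _ _).trans (le_max_left _ _)).trans hB
  have hB3 : B3 ≤ (p : ℝ) := ((le_max_left _ _).trans (le_max_right _ _)).trans hB
  have h3R : (3 : ℝ) ≤ (p : ℝ) := ((le_max_right _ _).trans (le_max_right _ _)).trans hB
  have h3N : 3 ≤ p := by exact_mod_cast h3R
  obtain ⟨q, g, hq, hpq, hgn, hgq, hg1, hcard, χ, hχ, hχd, hχl⟩ := bad_dataB n p hn1' h3N hph hPp
  have hgle : g ≤ n := Nat.le_of_dvd hn1' hgn
  have hqu := h2 n p q g hB2 hexc hgle hcard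
  have hgl := h3 p q g hB3 hpq hqu hcard
  have hpn : p ≤ n := by
    refine le_trans ?_ ((hcard p hpq).trans hgle)
    calc p = (Icc 1 p).card := by rw [Nat.card_Icc]; omega
      _ ≤ (SM p p).card := by
          apply card_le_card
          intro a ha
          rw [mem_Icc] at ha
          rw [mem_SM]
          exact ⟨ha, fun r _ hd => (Nat.le_of_dvd (by omega) hd).trans ha.2⟩
  have hq1 : 1 ≤ q - 1 := by have := hq.two_le; omega
  have hq1R : (1 : ℝ) ≤ ((q - 1 : ℕ) : ℝ) := by exact_mod_cast hq1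
  have hq0 : (0 : ℝ) < ((q - 1 : ℕ) : ℝ) := by linarith
  have hgR : (0 : ℝ) < g := by exact_mod_cast hg1
  refine ⟨hpn, q, g, hq, hqu, hgn, hgq, hg1, ?_, ?_, χ, hχ, hχl⟩
  · refine le_trans ?_ hgl
    apply Real.rpow_le_rpow_of_exponent_le hq1R
    linarith [min_le_left s s1]
  · apply h1 q p hq hB1 hpq χ hχ ((q - 1) / g) hχd (Nat.div_dvd_of_dvd hgq) _ hχl
    have e1 : (((q - 1) / g : ℕ) : ℝ) ≤ ((q - 1 : ℕ) : ℝ) / g := Nat.cast_div_le
    have e2 : ((q - 1 : ℕ) : ℝ) / g ≤ ((q - 1 : ℕ) : ℝ) ^ (min s s1) := by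
      rw [div_le_iff₀ hgR]
      calc ((q - 1 : ℕ) : ℝ) = ((q - 1 : ℕ) : ℝ) ^ (min s s1) *
            ((q - 1 : ℕ) : ℝ) ^ (1 - min s s1) := by
            rw [← Real.rpow_add hq0]; norm_num
        _ ≤ ((q - 1 : ℕ) : ℝ) ^ (min s s1) * g :=
            mul_le_mul_of_nonneg_left hgl (by positivity)
    have e3 : ((q - 1 : ℕ) : ℝ) ^ (min s s1) ≤ ((q - 1 : ℕ) : ℝ) ^ s1 :=
      Real.rpow_le_rpow_of_exponent_le hq1R (min_le_right _ _)
    have e4 : ((q - 1 : ℕ) : ℝ) ^ s1 ≤ (q : ℝ) ^ s1 := by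
      apply Real.rpow_le_rpow hq0.le _ hs1.le
      exact_mod_cast (by omega : q - 1 ≤ q)
    linarith

open Classical in
/-- the `n` in `(X, 2X]` with `h(n)` large and larger than `P(n)` -/
noncomputable def ExcB (ε : ℝ) (X : ℕ) : Finset ℕ :=
  (Ioc X (2 * X)).filter fun n => (n : ℝ) ^ ε < ((hfun n - 1 : ℕ) : ℝ) ∧ Pfun n < hfun n

lemma mem_ExcB {ε : ℝ} {X n : ℕ} : n ∈ ExcB ε X ↔ (X < n ∧ n ≤ 2 * X) ∧
    (n : ℝ) ^ ε < ((hfun n - 1 : ℕ) : ℝ) ∧ Pfun n < hfun n := by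
  classical
  unfold ExcB
  rw [mem_filter, mem_Ioc]

/-- Main counting theorem for the exceptional integers. -/
theorem exc_countB (ε η : ℝ) (hε : 0 < ε) (hη : 0 < η) : ∃ C : ℝ, ∀ X : ℕ, 1 ≤ X →
    ((ExcB ε X).card : ℝ) ≤ C * (X : ℝ) ^ (1 - TT * ε + η) := by
  have hTT := TT_pos
  set τ : ℝ := min 1 (η / (4 * (TT * ε))) with hτ
  have hTε : 0 < TT * ε := by positivity
  have hτ0 : 0 < τ := lt_min one_pos (by positivity)
  have hτ1 : τ ≤ 1 := min_le_left _ _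
  have hτ2 : TT * ε * τ ≤ η / 4 := by
    calc TT * ε * τ ≤ TT * ε * (η / (4 * (TT * ε))) :=
          mul_le_mul_of_nonneg_left (min_le_right _ _) hTε.le
      _ = η / 4 := by field_simp
  obtain ⟨u, hu, n₀, hn₀, hdata⟩ := exc_dataB ε τ τ hε hτ0 hτ1 hτ0
  have huR : (1 : ℝ) ≤ u := by exact_mod_cast hu
  obtain ⟨X1, hX11, hX1⟩ := EE_bound ε (η / 8) hε (by positivity) u hu
  obtain ⟨C, hC, hdiv⟩ := Pool.Agent.Lib.MP0b15c0.divisor_bound (ε := η / (16 * u))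
    (by positivity)
  set X₀ : ℝ := max (max n₀ X1) 3 with hX₀
  have hX₀3 : (3 : ℝ) ≤ X₀ := le_max_right _ _
  set e : ℝ := 1 - TT * ε + η with he
  refine ⟨max (16 * C) (X₀ * X₀ ^ |e|), ?_⟩
  intro X hX
  have hXR : (1 : ℝ) ≤ X := by exact_mod_cast hX
  have hXpos : (0 : ℝ) < X := by linarith
  by_cases hlarge : X₀ ≤ (X : ℝ)
  · -- large X
    have hXn₀ : n₀ ≤ (X : ℝ) := ((le_max_left _ _).trans (le_max_left _ _)).trans hlarge
    have hXX1 : X1 ≤ (X : ℝ) := ((le_max_right _ _).trans (le_max_left _ _)).trans hlarge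
    have hX3 : (3 : ℝ) ≤ X := hX₀3.trans hlarge
    have hX3N : 3 ≤ X := by exact_mod_cast hX3
    have hE := hX1 X hXX1
    set Y := ⌊(X : ℝ) ^ ε⌋₊ with hY
    set Q := X ^ (2 * u) with hQ
    set σ : ℝ := ε * (TT * (1 - τ)) with hσ
    have hσ0 : 0 ≤ σ := by
      rw [hσ]
      exact mul_nonneg hε.le (mul_nonneg hTT.le (by linarith))
    set G : ℝ := (X : ℝ) ^ (σ * (1 - τ)) / 2 with hG
    have hG0 : 0 < G := by positivity
    set D : ℝ := C * (X : ℝ) ^ (η / 8) with hD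
    have hD0 : 0 ≤ D := by positivity
    have hQR : ((Q : ℕ) : ℝ) = (X : ℝ) ^ (2 * (u : ℝ)) := by
      rw [hQ]; push_cast
      rw [← Real.rpow_natCast]; congr 1; push_cast; ring
    have hmain := Exc_card_le (EE Q Y) G D hG0 hD0 X (ExcB ε X)
      (by
        intro n hn
        rw [mem_ExcB] at hn
        obtain ⟨⟨hn1, hn2⟩, hn3, hn4⟩ := hn
        have hn1R : (X : ℝ) < n := by exact_mod_cast hn1
        obtain ⟨hpn, q, g, hq, hqu, hgn, hgq, hg1, hgl, hpq, χ, hχ, hχl⟩ :=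
          hdata n (hfun n - 1) (hXn₀.trans hn1R.le) hn3 (by omega) (by omega)
        set p := hfun n - 1 with hpdef
        have hXε : (X : ℝ) ^ ε ≤ p :=
          (Real.rpow_le_rpow hXpos.le hn1R.le hε.le).trans hn3.le
        have hYp : Y ≤ p := by
          rw [hY]; exact Nat.floor_le_of_le hXε
        refine ⟨hn2, by omega, q, ?_, g, hgn, hgq, ?_, ?_⟩
        · rw [mem_EE]
          refine ⟨?_, hq, χ, hχ, fun l hl hlY => hχl l hl (hlY.trans hYp)⟩
          refine hqu.trans ?_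
          rw [hQ, pow_mul]
          apply Nat.pow_le_pow_left
          have h2 : p ≤ 2 * X + 1 := by omega
          nlinarith
        · have := hq.two_le; omega
        · refine le_trans ?_ hgl
          have hp0 : (0 : ℝ) ≤ (p : ℝ) := Nat.cast_nonneg _
          have h1 : (X : ℝ) ^ σ ≤ q := by
            refine le_trans ?_ hpq
            rw [hσ, Real.rpow_mul hXpos.le]
            apply Real.rpow_le_rpow (by positivity) hXε
            exact mul_nonneg hTT.le (by linarith)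
          have h2 : (X : ℝ) ^ σ / 2 ≤ ((q - 1 : ℕ) : ℝ) := by
            have h3 : q ≤ 2 * (q - 1) := by have := hq.two_le; omega
            have h4 : (q : ℝ) ≤ 2 * ((q - 1 : ℕ) : ℝ) := by exact_mod_cast h3
            linarith
          have h5 : ((X : ℝ) ^ σ / 2) ^ (1 - τ) ≤ ((q - 1 : ℕ) : ℝ) ^ (1 - τ) :=
            Real.rpow_le_rpow (by positivity) h2 (by linarith)
          refine le_trans ?_ h5
          rw [hG, Real.div_rpow (by positivity) (by norm_num), ← Real.rpow_mul hXpos.le]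
          apply div_le_div_of_nonneg_left (by positivity) (by positivity)
          calc (2 : ℝ) ^ (1 - τ) ≤ (2 : ℝ) ^ (1 : ℝ) :=
                Real.rpow_le_rpow_of_exponent_le (by norm_num) (by linarith)
            _ = 2 := Real.rpow_one _)
      (by
        intro q hq hq1
        rw [mem_EE] at hq
        refine (hdiv (q - 1) hq1).trans ?_
        rw [hD]
        apply mul_le_mul_of_nonneg_left _ hC.le
        have h1 : ((q - 1 : ℕ) : ℝ) ≤ (X : ℝ) ^ (2 * (u : ℝ)) := by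
          rw [← hQR]
          exact_mod_cast (by omega : q - 1 ≤ Q)
        calc ((q - 1 : ℕ) : ℝ) ^ (η / (16 * u)) ≤ ((X : ℝ) ^ (2 * (u : ℝ))) ^ (η / (16 * u)) :=
              Real.rpow_le_rpow (Nat.cast_nonneg _) h1 (by positivity)
          _ = (X : ℝ) ^ (η / 8) := by
              rw [← Real.rpow_mul hXpos.le]; congr 1; field_simp; ring)
    have hfin : ((EE Q Y).card : ℝ) * (D * (2 * X / G)) ≤ 16 * C * (X : ℝ) ^ e := by
      have h1 : D * (2 * X / G) = 4 * C * (X : ℝ) ^ (η / 8 + 1 - σ * (1 - τ)) := by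
        rw [hD, hG]
        have e1 : (X : ℝ) ^ (η / 8 + 1 - σ * (1 - τ)) =
            (X : ℝ) ^ (η / 8) * X / (X : ℝ) ^ (σ * (1 - τ)) := by
          rw [Real.rpow_sub hXpos, Real.rpow_add hXpos, Real.rpow_one]
        rw [e1]
        have e2 : (X : ℝ) ^ (σ * (1 - τ)) ≠ 0 := by positivity
        field_simp
        ring
      rw [h1]
      calc ((EE Q Y).card : ℝ) * (4 * C * (X : ℝ) ^ (η / 8 + 1 - σ * (1 - τ))) ≤
            (4 * (X : ℝ) ^ (η / 8)) * (4 * C * (X : ℝ) ^ (η / 8 + 1 - σ * (1 - τ))) :=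
            mul_le_mul_of_nonneg_right hE (by positivity)
        _ = 16 * C * ((X : ℝ) ^ (η / 8) * (X : ℝ) ^ (η / 8 + 1 - σ * (1 - τ))) := by ring
        _ = 16 * C * (X : ℝ) ^ (η / 8 + (η / 8 + 1 - σ * (1 - τ))) := by
            rw [← Real.rpow_add hXpos]
        _ ≤ 16 * C * (X : ℝ) ^ e := by
            apply mul_le_mul_of_nonneg_left _ (by positivity)
            apply Real.rpow_le_rpow_of_exponent_le hXR
            rw [he, hσ]
            nlinarith [mul_nonneg (mul_nonneg hTε.le hτ0.le) hτ0.le]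
    calc ((ExcB ε X).card : ℝ) ≤ _ := hmain
      _ ≤ 16 * C * (X : ℝ) ^ e := hfin
      _ ≤ _ := mul_le_mul_of_nonneg_right (le_max_left _ _) (by positivity)
  · -- small X
    push Not at hlarge
    have h1 : ((ExcB ε X).card : ℝ) ≤ X := by
      have : (ExcB ε X).card ≤ X := by
        classical
        unfold ExcB
        refine (card_filter_le _ _).trans ?_
        rw [Nat.card_Ioc]; omega
      exact_mod_cast this
    have h2 : X₀ ^ (-|e|) ≤ (X : ℝ) ^ e := by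
      calc X₀ ^ (-|e|) ≤ (X : ℝ) ^ (-|e|) := by
            apply Real.rpow_le_rpow_of_nonpos hXpos hlarge.le
            linarith [abs_nonneg e]
        _ ≤ (X : ℝ) ^ e := Real.rpow_le_rpow_of_exponent_le hXR (neg_abs_le e)
    have h3 : X₀ ^ |e| * X₀ ^ (-|e|) = 1 := by
      rw [← Real.rpow_add (by linarith), add_neg_cancel, Real.rpow_zero]
    calc ((ExcB ε X).card : ℝ) ≤ X₀ := h1.trans hlarge.le
      _ = X₀ * X₀ ^ |e| * X₀ ^ (-|e|) := by rw [mul_assoc, h3, mul_one]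
      _ ≤ X₀ * X₀ ^ |e| * (X : ℝ) ^ e :=
          mul_le_mul_of_nonneg_left h2 (by positivity)
      _ ≤ _ := mul_le_mul_of_nonneg_right (le_max_right _ _) (by positivity)

/-- The final form. -/
theorem large_count (ε η : ℝ) (hε : 0 < ε) (hη : 0 < η) : ∃ C : ℝ, ∀ X : ℕ, 1 ≤ X →
    (({n : ℕ | X < n ∧ n ≤ 2 * X ∧ (n : ℝ) ^ ε < hfun n ∧ hfun n ≠ Pfun n}.ncard : ℕ) : ℝ) ≤
      C * (X : ℝ) ^ (1 - TT * ε + η) := by
  classical
  have hTT := TT_pos
  set d : ℝ := min (ε / 2) (η / (2 * TT)) with hd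
  have hd0 : 0 < d := lt_min (by positivity) (by positivity)
  have hd1 : d ≤ ε / 2 := min_le_left _ _
  have hd2 : TT * d ≤ η / 2 := by
    calc TT * d ≤ TT * (η / (2 * TT)) := mul_le_mul_of_nonneg_left (min_le_right _ _) hTT.le
      _ = η / 2 := by field_simp
  set ε' : ℝ := ε - d with hε'
  have hε'0 : 0 < ε' := by linarith
  obtain ⟨C, hC⟩ := exc_countB ε' (η / 2) hε'0 (by positivity)
  obtain ⟨n1, hn11, hn1⟩ := exists_rpow_ge d 2 hd0
  obtain ⟨n2, hn21, hn2⟩ := exists_rpow_ge ε 2 hε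
  set X₀ : ℝ := max n1 n2 with hX₀
  have hX₀1 : 1 ≤ X₀ := hn11.trans (le_max_left _ _)
  set e : ℝ := 1 - TT * ε + η with he
  refine ⟨max C (X₀ * X₀ ^ |e|), ?_⟩
  intro X hX
  have hXR : (1 : ℝ) ≤ X := by exact_mod_cast hX
  have hXpos : (0 : ℝ) < X := by linarith
  by_cases hlarge : X₀ ≤ (X : ℝ)
  · have hsub : {n : ℕ | X < n ∧ n ≤ 2 * X ∧ (n : ℝ) ^ ε < hfun n ∧ hfun n ≠ Pfun n} ⊆
        ((ExcB ε' X : Finset ℕ) : Set ℕ) := by
      rintro n ⟨h1, h2, h3, h4⟩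
      rw [Finset.mem_coe, mem_ExcB]
      have hnX : X₀ ≤ (n : ℝ) := hlarge.trans (by exact_mod_cast h1.le)
      have hn0 : (0 : ℝ) < n := by
        have : (1 : ℝ) ≤ n := hX₀1.trans hnX
        linarith
      have hA : (2 : ℝ) ≤ (n : ℝ) ^ d := hn1 n ((le_max_left _ _).trans hnX)
      have hB : (2 : ℝ) ≤ (n : ℝ) ^ ε := hn2 n ((le_max_right _ _).trans hnX)
      have hpos : 0 < hfun n := by
        have : (0 : ℝ) < hfun n := by linarith
        exact_mod_cast this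
      have hle := Pfun_le_hfun n (by omega) hpos
      refine ⟨⟨h1, h2⟩, ?_, lt_of_le_of_ne hle (Ne.symm h4)⟩
      have h5 : (n : ℝ) ^ ε = (n : ℝ) ^ ε' * (n : ℝ) ^ d := by
        rw [← Real.rpow_add hn0, hε']; congr 1; ring
      have h6 : 2 * (n : ℝ) ^ ε' ≤ (n : ℝ) ^ ε := by
        rw [h5, mul_comm]
        exact mul_le_mul_of_nonneg_left hA (by positivity)
      have h7 : ((hfun n - 1 : ℕ) : ℝ) = (hfun n : ℝ) - 1 := by
        rw [Nat.cast_sub hpos, Nat.cast_one]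
      rw [h7]
      linarith
    have hc : {n : ℕ | X < n ∧ n ≤ 2 * X ∧ (n : ℝ) ^ ε < hfun n ∧ hfun n ≠ Pfun n}.ncard ≤
        (ExcB ε' X).card := by
      rw [← Set.ncard_coe_finset]
      exact Set.ncard_le_ncard hsub (Finset.finite_toSet _)
    have hcR : (({n : ℕ | X < n ∧ n ≤ 2 * X ∧ (n : ℝ) ^ ε < hfun n ∧ hfun n ≠ Pfun n}.ncard : ℕ) : ℝ) ≤
        ((ExcB ε' X).card : ℝ) := by exact_mod_cast hc
    have h8 : ((ExcB ε' X).card : ℝ) ≤ max C (X₀ * X₀ ^ |e|) * (X : ℝ) ^ (1 - TT * ε' + η / 2) :=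
      (hC X hX).trans (mul_le_mul_of_nonneg_right (le_max_left _ _) (by positivity))
    refine hcR.trans (h8.trans ?_)
    apply mul_le_mul_of_nonneg_left _ (le_trans (by positivity) (le_max_right _ _))
    apply Real.rpow_le_rpow_of_exponent_le hXR
    rw [he, hε']
    nlinarith
  · push Not at hlarge
    have hfin : (Set.Ioc X (2 * X)).Finite := Set.finite_Ioc _ _
    have h1 : (({n : ℕ | X < n ∧ n ≤ 2 * X ∧ (n : ℝ) ^ ε < hfun n ∧ hfun n ≠ Pfun n}.ncard : ℕ) : ℝ) ≤ X := by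
      have h2 : {n : ℕ | X < n ∧ n ≤ 2 * X ∧ (n : ℝ) ^ ε < hfun n ∧ hfun n ≠ Pfun n}.ncard ≤
          (Finset.Ioc X (2 * X)).card := by
        rw [← Set.ncard_coe_finset]
        apply Set.ncard_le_ncard _ (Finset.finite_toSet _)
        rintro n ⟨h1, h2, -, -⟩
        rw [Finset.mem_coe, mem_Ioc]
        exact ⟨h1, h2⟩
      rw [Nat.card_Ioc] at h2
      have h3 : {n : ℕ | X < n ∧ n ≤ 2 * X ∧ (n : ℝ) ^ ε < hfun n ∧ hfun n ≠ Pfun n}.ncard ≤ X := by omega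
      exact_mod_cast h3
    have h2 : X₀ ^ (-|e|) ≤ (X : ℝ) ^ e := by
      calc X₀ ^ (-|e|) ≤ (X : ℝ) ^ (-|e|) := by
            apply Real.rpow_le_rpow_of_nonpos hXpos hlarge.le
            linarith [abs_nonneg e]
        _ ≤ (X : ℝ) ^ e := Real.rpow_le_rpow_of_exponent_le hXR (neg_abs_le e)
    have h3 : X₀ ^ |e| * X₀ ^ (-|e|) = 1 := by
      rw [← Real.rpow_add (by linarith), add_neg_cancel, Real.rpow_zero]
    calc _ ≤ X₀ := h1.trans hlarge.le
      _ = X₀ * X₀ ^ |e| * X₀ ^ (-|e|) := by rw [mul_assoc, h3, mul_one]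
      _ ≤ X₀ * X₀ ^ |e| * (X : ℝ) ^ e :=
          mul_le_mul_of_nonneg_left h2 (by positivity)
      _ ≤ _ := mul_le_mul_of_nonneg_right (le_max_right _ _) (by positivity)

end Pool.Agent.Lib.MP53c6dc
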